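import Mathlib

set_option autoImplicit false

namespace Pool.Agent.Results.MP_557f7f_co.BothQuestions

open Polynomial Matrix

/-- An `n × n` sign pattern: a matrix with entries in `{+, -, 0}`. -/
abbrev SignPattern (n : ℕ) := Matrix (Fin n) (Fin n) SignType

/-- `B` is a realization of the sign pattern `A`. -/
def Realizes {n : ℕ} (A : SignPattern n) (B : Matrix (Fin n) (Fin n) ℝ) : Prop :=
  ∀ i j, SignType.sign (B i j) = A i j

/-- `A` is spectrally arbitrary: every monic real polynomial of degree `n` is the characteristic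
polynomial of some realization. -/
def SpectrallyArbitrary {n : ℕ} (A : SignPattern n) : Prop :=
  ∀ p : ℝ[X], p.Monic → p.natDegree = n → ∃ B, Realizes A B ∧ B.charpoly = p

/-- `A'` is a superpattern of `A`. -/
def IsSuperpattern {n : ℕ} (A' A : SignPattern n) : Prop :=
  ∀ i j, A i j ≠ 0 → A' i j = A i j

/-- The eigenvalues of a real matrix, with algebraic multiplicity. -/
noncomputable def eigs {n : ℕ} (B : Matrix (Fin n) (Fin n) ℝ) : Multiset ℂ :=
  (B.charpoly.map (algebraMap ℝ ℂ)).roots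

open Classical in
/-- `B` has inertia `(np, nm, nz)`: the numbers, counted with multiplicity, of eigenvalues with
positive, negative and zero real part. -/
def HasInertia {n : ℕ} (B : Matrix (Fin n) (Fin n) ℝ) (np nm nz : ℕ) : Prop :=
  (eigs B).countP (fun z => 0 < z.re) = np ∧ (eigs B).countP (fun z => z.re < 0) = nm ∧
    (eigs B).countP (fun z => z.re = 0) = nz

/-- `A` is inertially arbitrary: every triple of nonnegative integers with sum `n` is the inertia
of some realization. -/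
def InertiallyArbitrary {n : ℕ} (A : SignPattern n) : Prop :=
  ∀ np nm nz : ℕ, np + nm + nz = n → ∃ B, Realizes A B ∧ HasInertia B np nm nz

/-! ### The two by two pattern -/

lemma t2_real (s p : ℝ) : ∃ a b c d : ℝ, 0 < a ∧ 0 < b ∧ 0 < c ∧ 0 < d ∧
    (!![a, b; -c, -d] : Matrix (Fin 2) (Fin 2) ℝ).charpoly = X ^ 2 - C s * X + C p := by
  set u : ℝ := |s| + |p| + 1 with hu
  have h1 : 0 ≤ |s| := abs_nonneg s
  have h2 : 0 ≤ |p| := abs_nonneg p
  have h3 : s ≤ |s| := le_abs_self s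
  have h4 : -|p| ≤ p := neg_abs_le p
  have h5 : 0 < p + u * (u - s) := by
    have : 1 * (|p| + 1) ≤ (u - s) * u := by
      apply mul_le_mul <;> linarith
    linarith
  refine ⟨u, 1, p + u * (u - s), u - s, by linarith, one_pos, h5, by linarith, ?_⟩
  rw [Matrix.charpoly_fin_two, Matrix.trace_fin_two, Matrix.det_fin_two]
  simp only [Matrix.of_apply, Matrix.cons_val', Matrix.cons_val_zero, Matrix.cons_val_one,
    Matrix.cons_val_fin_one]
  congr 3
  · congr 1
    ring
  · ring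

/-! ### The four by four pattern -/

lemma m4_charpoly (a b c d e f g h i z : ℝ) :
    (!![a, b, -c, z; -d, -e, f, 0; 0, 0, 0, -g; h, i, 0, 0] :
      Matrix (Fin 4) (Fin 4) ℝ).charpoly =
      X ^ 4 - C (a - e) * X ^ 3 + C (b * d - a * e - z * h) * X ^ 2
        - C (g * (c * h - f * i) + z * (e * h - d * i)) * X
        + C (g * (b * f * h + c * d * i - e * c * h - a * f * i)) := by
  simp only [Matrix.charpoly, Matrix.charmatrix, Matrix.det_succ_row_zero, Fin.sum_univ_succ,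
    Matrix.scalar_apply]
  simp [Fin.succAbove, Matrix.submatrix]
  ring

lemma m4_pos (E1 E2 E3 E4 : ℝ) (h : 0 < E4) : ∃ a b c d e f : ℝ,
    0 < a ∧ 0 < b ∧ 0 < c ∧ 0 < d ∧ 0 < e ∧ 0 < f ∧
    a - e = E1 ∧ b * d - a * e = E2 ∧ c - f = E3 ∧ b * f + c * d - e * c - a * f = E4 := by
  set a : ℝ := |E1| + |E2| + 1 with ha
  set e : ℝ := a - E1 with he
  have h1 : 0 ≤ |E1| := abs_nonneg E1
  have h2 : 0 ≤ |E2| := abs_nonneg E2
  have h3 : E1 ≤ |E1| := le_abs_self E1
  have h4 : -|E2| ≤ E2 := neg_abs_le E2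
  have ha0 : 0 < a := by linarith
  have he0 : 0 < e := by linarith
  set β : ℝ := E2 + a * e with hβ
  have hβ0 : 0 < β := by
    have : (|E2| + 1) * 1 ≤ a * e := by
      apply mul_le_mul <;> linarith
    linarith
  set K : ℝ := 4 * β * (1 + |E3|) with hK
  have hK0 : 0 < K := by positivity
  set η : ℝ := min 1 (E4 ^ 2 / K) with hη
  have hη0 : 0 < η := lt_min one_pos (by positivity)
  have hη1 : η ≤ 1 := min_le_left _ _
  have hη2 : η * K ≤ E4 ^ 2 := by
    have : η ≤ E4 ^ 2 / K := min_le_right _ _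
    rwa [le_div_iff₀ hK0] at this
  set c : ℝ := η + max E3 0 with hc
  set f : ℝ := η + max (-E3) 0 with hf
  have hc0 : 0 < c := by have := le_max_right E3 0; linarith
  have hf0 : 0 < f := by have := le_max_right (-E3) 0; linarith
  have hcf : c * f = η * (η + |E3|) := by
    rcases le_total 0 E3 with h | h
    · rw [hc, hf, max_eq_left h, max_eq_right (by linarith), abs_of_nonneg h]; ring
    · rw [hc, hf, max_eq_right h, max_eq_left (by linarith), abs_of_nonpos h]; ring
  have hcf2 : c - f = E3 := by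
    rcases le_total 0 E3 with h | h
    · rw [hc, hf, max_eq_left h, max_eq_right (by linarith)]; ring
    · rw [hc, hf, max_eq_right h, max_eq_left (by linarith)]; ring
  set S : ℝ := E4 + e * c + a * f with hS
  have hS0 : E4 < S := by
    have : 0 < e * c := by positivity
    have : 0 < a * f := by positivity
    linarith
  have hdisc : 0 ≤ S ^ 2 - 4 * β * (c * f) := by
    have h5 : 4 * β * (c * f) ≤ E4 ^ 2 := by
      rw [hcf]
      calc 4 * β * (η * (η + |E3|)) ≤ 4 * β * (η * (1 + |E3|)) := by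
            apply mul_le_mul_of_nonneg_left _ (by positivity)
            apply mul_le_mul_of_nonneg_left _ hη0.le
            linarith
        _ = η * K := by rw [hK]; ring
        _ ≤ E4 ^ 2 := hη2
    have h6 : E4 ^ 2 ≤ S ^ 2 := pow_le_pow_left₀ h.le hS0.le 2
    linarith
  set R : ℝ := Real.sqrt (S ^ 2 - 4 * β * (c * f)) with hR
  have hR0 : 0 ≤ R := Real.sqrt_nonneg _
  have hR2 : R ^ 2 = S ^ 2 - 4 * β * (c * f) := Real.sq_sqrt hdisc
  set b : ℝ := (S + R) / (2 * f) with hb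
  have hb0 : 0 < b := by
    apply div_pos _ (by positivity)
    linarith
  have hbf : 2 * f * b = S + R := by rw [hb]; field_simp
  have hquad : b * f + c * (β / b) = S := by
    field_simp
    have : 4 * f * (b ^ 2 * f + c * β - b * S) = 0 := by
      have e1 : 4 * f * (b ^ 2 * f + c * β - b * S) =
        (2 * f * b) ^ 2 + 4 * β * (c * f) - 2 * (2 * f * b) * S := by ring
      rw [e1, hbf]
      linear_combination hR2
    have h7 : b ^ 2 * f + c * β - b * S = 0 := by
      rcases mul_eq_zero.1 this with h | h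
      · exfalso; linarith
      · exact h
    linear_combination h7
  refine ⟨a, b, c, β / b, e, f, ha0, hb0, hc0, by positivity, he0, hf0, by rw [he]; ring, ?_,
    hcf2, ?_⟩
  · rw [mul_div_cancel₀ _ hb0.ne', hβ]; ring
  · linear_combination hquad + hS

/-- Quartics realized by the four by four pattern. -/
def M4Real (q : ℝ[X]) : Prop := ∃ a b c d e f : ℝ,
    0 < a ∧ 0 < b ∧ 0 < c ∧ 0 < d ∧ 0 < e ∧ 0 < f ∧
    (!![a, b, -c, 0; -d, -e, f, 0; 0, 0, 0, -1; 1, 1, 0, 0] :
      Matrix (Fin 4) (Fin 4) ℝ).charpoly = q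

/-- A monic quadratic. -/
noncomputable def quad (s t : ℝ) : ℝ[X] := X ^ 2 - C s * X + C t

lemma m4_of_coeffs (a b c d e f : ℝ) : (!![a, b, -c, 0; -d, -e, f, 0; 0, 0, 0, -1; 1, 1, 0, 0] :
      Matrix (Fin 4) (Fin 4) ℝ).charpoly =
      X ^ 4 - C (a - e) * X ^ 3 + C (b * d - a * e) * X ^ 2
        - C (c - f) * X + C (b * f + c * d - e * c - a * f) := by
  rw [m4_charpoly a b c d e f 1 1 1 0]
  have e1 : b * d - a * e - 0 * 1 = b * d - a * e := by ring
  have e2 : 1 * (c * 1 - f * 1) + 0 * (e * 1 - d * 1) = c - f := by ring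
  have e3 : 1 * (b * f * 1 + c * d * 1 - e * c * 1 - a * f * 1) =
    b * f + c * d - e * c - a * f := by ring
  rw [e1, e2, e3]

lemma pair_pos (a1 b1 a2 b2 : ℝ) (h : 0 < b1 * b2) : M4Real (quad a1 b1 * quad a2 b2) := by
  obtain ⟨a, b, c, d, e, f, ha, hb, hc, hd, he, hf, h1, h2, h3, h4⟩ :=
    m4_pos (a1 + a2) (b1 + b2 + a1 * a2) (a1 * b2 + a2 * b1) (b1 * b2) h
  refine ⟨a, b, c, d, e, f, ha, hb, hc, hd, he, hf, ?_⟩
  rw [m4_of_coeffs, h1, h2, h3, h4, quad, quad]
  simp only [map_add, map_mul]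
  ring

lemma pair_zero (a1 a2 : ℝ) : M4Real (quad a1 0 * quad a2 0) := by
  set a : ℝ := |a1| + |a2| + 1 with ha
  have h1 : 0 ≤ |a1| := abs_nonneg a1
  have h2 : 0 ≤ |a2| := abs_nonneg a2
  have h3 : a1 ≤ |a1| := le_abs_self a1
  have h4 : a2 ≤ |a2| := le_abs_self a2
  refine ⟨a, a - a2, 1, a - a1, a - a1 - a2, 1, by linarith, by linarith, one_pos, by linarith,
    by linarith, one_pos, ?_⟩
  rw [m4_of_coeffs, quad, quad]
  have e1 : a - (a - a1 - a2) = a1 + a2 := by ring
  have e2 : (a - a2) * (a - a1) - a * (a - a1 - a2) = a1 * a2 := by ring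
  have e3 : (a - a2) * 1 + 1 * (a - a1) - (a - a1 - a2) * 1 - a * 1 = 0 := by ring
  rw [e1, e2, e3]
  simp only [map_add, map_mul, sub_self, map_zero]
  ring

/-- Sextics that have a good factorization. -/
def Good (p : ℝ[X]) : Prop := ∃ (g : ℝ[X]) (s t : ℝ), M4Real g ∧ p = g * quad s t

lemma good_mixed (a1 b1 a2 b2 s : ℝ) (h1 : 0 < b1) (h2 : b2 < 0) :
    Good (quad a1 b1 * quad a2 b2 * quad s 0) := by
  have hdisc : 0 ≤ a2 ^ 2 - 4 * b2 := by nlinarith [sq_nonneg a2]
  set R : ℝ := Real.sqrt (a2 ^ 2 - 4 * b2) with hR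
  have hR0 : 0 ≤ R := Real.sqrt_nonneg _
  have hR2 : R ^ 2 = a2 ^ 2 - 4 * b2 := Real.sq_sqrt hdisc
  have hRa : |a2| < R := by
    apply Real.lt_sqrt_of_sq_lt
    rw [sq_abs]; linarith
  have hRa1 := (abs_lt.1 hRa).1
  have hRa2 := (abs_lt.1 hRa).2
  set α : ℝ := (a2 + R) / 2 with hα
  set γ : ℝ := (R - a2) / 2 with hγ
  have hα0 : 0 < α := by linarith
  have hγ0 : 0 < γ := by linarith
  have hs : a2 = α - γ := by rw [hα, hγ]; ring
  have hp : b2 = -(α * γ) := by rw [hα, hγ]; linear_combination (1 / 4) * hR2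
  rcases lt_trichotomy s 0 with hs0 | hs0 | hs0
  · refine ⟨quad a1 b1 * quad (s - γ) (-(γ * s)), α, 0, pair_pos _ _ _ _ ?_, ?_⟩
    · have : 0 < -(γ * s) := by nlinarith
      positivity
    · rw [hs, hp]
      simp only [quad, map_sub, map_mul, map_neg, map_zero]
      ring
  · refine ⟨quad α 0 * quad (-γ) 0, a1, b1, pair_zero _ _, ?_⟩
    rw [hs, hp, hs0]
    simp only [quad, map_sub, map_mul, map_neg, map_zero]
    ring
  · refine ⟨quad a1 b1 * quad (α + s) (α * s), -γ, 0, pair_pos _ _ _ _ (by positivity), ?_⟩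
    rw [hs, hp]
    simp only [quad, map_sub, map_mul, map_neg, map_zero, map_add]
    ring

lemma good_of_one_zero (a1 b1 a2 b2 s : ℝ) (h : b1 * b2 < 0) :
    Good (quad a1 b1 * quad a2 b2 * quad s 0) := by
  rcases mul_neg_iff.1 h with ⟨h1, h2⟩ | ⟨h1, h2⟩
  · exact good_mixed a1 b1 a2 b2 s h1 h2
  · rw [mul_comm (quad a1 b1)]
    exact good_mixed a2 b2 a1 b1 s h2 h1

lemma good_all (a1 b1 a2 b2 a3 b3 : ℝ) :
    Good (quad a1 b1 * quad a2 b2 * quad a3 b3) := by
  have r1 : quad a1 b1 * quad a2 b2 * quad a3 b3 = quad a2 b2 * quad a3 b3 * quad a1 b1 := by ring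
  have r2 : quad a1 b1 * quad a2 b2 * quad a3 b3 = quad a1 b1 * quad a3 b3 * quad a2 b2 := by ring
  by_cases h12 : 0 < b1 * b2
  · exact ⟨_, _, _, pair_pos _ _ _ _ h12, rfl⟩
  by_cases h13 : 0 < b1 * b3
  · exact ⟨_, _, _, pair_pos _ _ _ _ h13, r2⟩
  by_cases h23 : 0 < b2 * b3
  · exact ⟨_, _, _, pair_pos _ _ _ _ h23, r1⟩
  by_cases z1 : b1 = 0
  · subst z1
    by_cases z2 : b2 = 0
    · subst z2
      exact ⟨_, _, _, pair_zero _ _, rfl⟩
    by_cases z3 : b3 = 0
    · subst z3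
      exact ⟨_, _, _, pair_zero _ _, r2⟩
    · rw [r1]
      apply good_of_one_zero
      exact lt_of_le_of_ne (not_lt.1 h23) (mul_ne_zero z2 z3)
  by_cases z2 : b2 = 0
  · subst z2
    by_cases z3 : b3 = 0
    · subst z3
      exact ⟨_, _, _, pair_zero _ _, r1⟩
    · rw [r2]
      apply good_of_one_zero
      exact lt_of_le_of_ne (not_lt.1 h13) (mul_ne_zero z1 z3)
  by_cases z3 : b3 = 0
  · subst z3
    apply good_of_one_zero
    exact lt_of_le_of_ne (not_lt.1 h12) (mul_ne_zero z1 z2)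
  · exfalso
    rcases lt_or_gt_of_ne z1 with h1 | h1 <;> rcases lt_or_gt_of_ne z2 with h2 | h2 <;>
      rcases lt_or_gt_of_ne z3 with h3 | h3 <;> nlinarith

lemma good_sextic (p : ℝ[X]) (hp : p.Monic) (hd : p.natDegree = 6) : Good p := by
  have h0 : IsMonicOfDegree p (4 + 2) := ⟨hd, hp⟩
  obtain ⟨q1, f1, hq1, hf1, rfl⟩ := h0.eq_isMonicOfDegree_two_mul_isMonicOfDegree
  have h1 : IsMonicOfDegree f1 (2 + 2) := hf1
  obtain ⟨q2, q3, hq2, hq3, rfl⟩ := h1.eq_isMonicOfDegree_two_mul_isMonicOfDegree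
  obtain ⟨a1, b1, rfl⟩ := isMonicOfDegree_two_iff'.1 hq1
  obtain ⟨a2, b2, rfl⟩ := isMonicOfDegree_two_iff'.1 hq2
  obtain ⟨a3, b3, rfl⟩ := isMonicOfDegree_two_iff'.1 hq3
  rw [← mul_assoc]
  exact good_all a1 b1 a2 b2 a3 b3

/-! ### Block patterns -/

/-- The block diagonal matrix on `Fin 6`. -/
def blk {α : Type} [Zero α] (A : Matrix (Fin 4) (Fin 4) α) (B : Matrix (Fin 2) (Fin 2) α) :
    Matrix (Fin 6) (Fin 6) α :=
  Matrix.reindex (finSumFinEquiv (m := 4) (n := 2)) (finSumFinEquiv (m := 4) (n := 2))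
    (Matrix.fromBlocks A 0 0 B)

lemma blk_apply {α : Type} [Zero α] (A : Matrix (Fin 4) (Fin 4) α) (B : Matrix (Fin 2) (Fin 2) α)
    (x y : Fin 4 ⊕ Fin 2) : blk A B (finSumFinEquiv x) (finSumFinEquiv y) =
      Matrix.fromBlocks A 0 0 B x y := by
  simp [blk, Matrix.reindex_apply, Matrix.submatrix_apply]

lemma blk_charpoly (A : Matrix (Fin 4) (Fin 4) ℝ) (B : Matrix (Fin 2) (Fin 2) ℝ) :
    (blk A B).charpoly = A.charpoly * B.charpoly := by
  rw [blk, Matrix.charpoly_reindex, Matrix.charpoly_fromBlocks_zero₁₂]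

/-- The four by four pattern `M₄`. -/
def M4 : Matrix (Fin 4) (Fin 4) SignType := !![1, 1, -1, 0; -1, -1, 1, 0; 0, 0, 0, -1; 1, 1, 0, 0]

/-- The superpattern of `M₄` with `+` in position `(1,4)`. -/
def M4' : Matrix (Fin 4) (Fin 4) SignType := !![1, 1, -1, 1; -1, -1, 1, 0; 0, 0, 0, -1; 1, 1, 0, 0]

/-- The two by two pattern `T₂`. -/
def T2 : Matrix (Fin 2) (Fin 2) SignType := !![1, 1; -1, -1]

lemma forall_fin6 (P : Fin 6 → Prop) (h : ∀ x : Fin 4 ⊕ Fin 2, P (finSumFinEquiv x)) :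
    ∀ i, P i := by
  intro i
  have := h ((finSumFinEquiv (m := 4) (n := 2)).symm i)
  rwa [Equiv.apply_symm_apply] at this

lemma sap : SpectrallyArbitrary (blk M4 T2) := by
  intro p hp hd
  obtain ⟨g, s, t, ⟨a, b, c, d, e, f, ha, hb, hc, hd', he, hf, hg⟩, rfl⟩ := good_sextic p hp hd
  obtain ⟨u, v, w, x, hu, hv, hw, hx, hq⟩ := t2_real s t
  refine ⟨blk !![a, b, -c, 0; -d, -e, f, 0; 0, 0, 0, -1; 1, 1, 0, 0] !![u, v; -w, -x], ?_, ?_⟩
  · apply forall_fin6
    intro i
    apply forall_fin6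
    intro j
    rw [blk_apply, blk_apply]
    rcases i with i | i <;> rcases j with j | j
    · rw [Matrix.fromBlocks_apply₁₁, Matrix.fromBlocks_apply₁₁]
      fin_cases i <;> fin_cases j <;>
        simp [M4, sign_pos, sign_neg, ha, hb, hc, hd', he, hf]
    · simp
    · simp
    · rw [Matrix.fromBlocks_apply₂₂, Matrix.fromBlocks_apply₂₂]
      fin_cases i <;> fin_cases j <;>
        simp [T2, sign_pos, sign_neg, hu, hv, hw, hx]
  · rw [blk_charpoly, hg, hq, quad]

lemma sup : IsSuperpattern (blk M4' T2) (blk M4 T2) := by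
  unfold IsSuperpattern
  apply forall_fin6
  intro i
  apply forall_fin6
  intro j
  rw [blk_apply, blk_apply]
  rcases i with i | i <;> rcases j with j | j
  · rw [Matrix.fromBlocks_apply₁₁, Matrix.fromBlocks_apply₁₁]
    fin_cases i <;> fin_cases j <;> simp [M4, M4']
  · simp
  · simp
  · simp

/-- No matrix with the sign pattern `M4'` is nilpotent. -/
lemma not_nilp (a b c d e f g h i z : ℝ) (ha : 0 < a) (hc : 0 < c) (hd : 0 < d) (hf : 0 < f)
    (hg : 0 < g) (hh : 0 < h) (hi : 0 < i) (hz : 0 < z)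
    (hX : (!![a, b, -c, z; -d, -e, f, 0; 0, 0, 0, -g; h, i, 0, 0] :
      Matrix (Fin 4) (Fin 4) ℝ).charpoly = X ^ 4) : False := by
  rw [m4_charpoly] at hX
  have c3 := congrArg (fun p => p.coeff 3) hX
  have c2 := congrArg (fun p => p.coeff 2) hX
  have c1 := congrArg (fun p => p.coeff 1) hX
  have c0 := congrArg (fun p => p.coeff 0) hX
  simp only [coeff_add, coeff_sub, coeff_C_mul, coeff_X_pow, coeff_X, coeff_C] at c3 c2 c1 c0
  norm_num at c3 c2 c1 c0
  have hea : e = a := by linarith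
  subst hea
  have c0' : b * f * h + c * d * i - e * c * h - e * f * i = 0 := by
    rcases c0 with h | h
    · exact absurd h hg.ne'
    · exact h
  have key : (e * h - d * i) ^ 2 * (g * f * i + z * d * i) + g * z * f * i * h ^ 3 = 0 := by
    linear_combination (d * i * h) * g * c0' - (g * f * i * h ^ 2) * c2 +
      ((d * i) ^ 2 - e * h * (d * i)) * c1
  have h1 : 0 ≤ (e * h - d * i) ^ 2 * (g * f * i + z * d * i) := by positivity
  have h2 : 0 < g * z * f * i * h ^ 3 := by positivity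
  linarith

lemma not_sap : ¬ SpectrallyArbitrary (blk M4' T2) := by
  intro hS
  obtain ⟨B, hB, hc⟩ := hS (X ^ 6) (monic_X_pow 6) (natDegree_X_pow 6)
  set B4 : Matrix (Fin 4) (Fin 4) ℝ := fun i j => B (finSumFinEquiv (m := 4) (n := 2) (Sum.inl i))
    (finSumFinEquiv (m := 4) (n := 2) (Sum.inl j)) with hB4
  set B2 : Matrix (Fin 2) (Fin 2) ℝ := fun i j => B (finSumFinEquiv (m := 4) (n := 2) (Sum.inr i))
    (finSumFinEquiv (m := 4) (n := 2) (Sum.inr j)) with hB2
  have hBb : B = blk B4 B2 := by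
    ext i j
    revert j
    revert i
    apply forall_fin6
    intro i
    apply forall_fin6
    intro j
    rw [blk_apply]
    have h := hB (finSumFinEquiv (m := 4) (n := 2) i) (finSumFinEquiv (m := 4) (n := 2) j)
    rw [blk_apply] at h
    rcases i with i | i <;> rcases j with j | j
    · rfl
    · simpa using h
    · simpa using h
    · rfl
  have hs4 : ∀ i j, SignType.sign (B4 i j) = M4' i j := by
    intro i j
    have h := hB (finSumFinEquiv (m := 4) (n := 2) (Sum.inl i))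
      (finSumFinEquiv (m := 4) (n := 2) (Sum.inl j))
    rw [blk_apply] at h
    simpa using h
  rw [hBb, blk_charpoly] at hc
  have hdvd : B4.charpoly ∣ X ^ 6 := ⟨_, hc.symm⟩
  obtain ⟨k, -, hk⟩ := (dvd_prime_pow Polynomial.prime_X 6).1 hdvd
  have hk2 : B4.charpoly = X ^ k :=
    eq_of_monic_of_associated (Matrix.charpoly_monic B4) (monic_X_pow k) hk
  have hdeg : k = 4 := by
    have h1 : B4.charpoly.natDegree = 4 := by
      rw [Matrix.charpoly_natDegree_eq_dim, Fintype.card_fin]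
    rw [hk2, natDegree_X_pow] at h1
    exact h1
  subst hdeg
  have pos : ∀ i j, M4' i j = 1 → 0 < B4 i j := fun i j h => by
    rw [← sign_eq_one_iff, hs4, h]
  have neg : ∀ i j, M4' i j = -1 → 0 < -B4 i j := fun i j h => by
    have : B4 i j < 0 := by rw [← sign_eq_neg_one_iff, hs4, h]
    linarith
  have zer : ∀ i j, M4' i j = 0 → B4 i j = 0 := fun i j h => by
    rw [← sign_eq_zero_iff, hs4, h]
  apply not_nilp (B4 0 0) (B4 0 1) (-B4 0 2) (-B4 1 0) (-B4 1 1) (B4 1 2) (-B4 2 3) (B4 3 0)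
    (B4 3 1) (B4 0 3) (pos 0 0 rfl) (neg 0 2 rfl) (neg 1 0 rfl) (pos 1 2 rfl) (neg 2 3 rfl)
    (pos 3 0 rfl) (pos 3 1 rfl) (pos 0 3 rfl)
  rw [← hk2]
  congr 1
  ext i j
  fin_cases i <;> fin_cases j <;>
    simp [zer 1 3 rfl, zer 2 0 rfl, zer 2 1 rfl, zer 2 2 rfl, zer 3 2 rfl, zer 3 3 rfl]

/-! ### The inertial question -/

lemma quad_solve (β S c f : ℝ) (hβ : 0 < β) (hS : 0 < S) (hc : 0 < c) (hf : 0 < f)
    (hd : 4 * β * (c * f) ≤ S ^ 2) : ∃ b d : ℝ, 0 < b ∧ 0 < d ∧ b * d = β ∧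
      b * f + c * d = S := by
  set R : ℝ := Real.sqrt (S ^ 2 - 4 * β * (c * f)) with hR
  have hR0 : 0 ≤ R := Real.sqrt_nonneg _
  have hR2 : R ^ 2 = S ^ 2 - 4 * β * (c * f) := Real.sq_sqrt (by linarith)
  set b : ℝ := (S + R) / (2 * f) with hb
  have hb0 : 0 < b := by
    apply div_pos _ (by positivity)
    linarith
  have hbf : 2 * f * b = S + R := by rw [hb]; field_simp
  refine ⟨b, β / b, hb0, by positivity, mul_div_cancel₀ _ hb0.ne', ?_⟩
  field_simp
  have : 4 * f * (b ^ 2 * f + c * β - b * S) = 0 := by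
    have e1 : 4 * f * (b ^ 2 * f + c * β - b * S) =
      (2 * f * b) ^ 2 + 4 * β * (c * f) - 2 * (2 * f * b) * S := by ring
    rw [e1, hbf]
    linear_combination hR2
  have h7 : b ^ 2 * f + c * β - b * S = 0 := by
    rcases mul_eq_zero.1 this with h | h
    · exfalso; linarith
    · exact h
  linear_combination h7

lemma n4_real (E1 E2 E3 E4 : ℝ) (h : E3 ≠ 0) : ∃ a b c d e f : ℝ,
    0 < a ∧ 0 < b ∧ 0 < c ∧ 0 < d ∧ 0 < e ∧ 0 < f ∧
    a - e = E1 ∧ b * d - a * e = E2 ∧ f - c = E3 ∧ a * f + e * c - b * f - c * d = E4 := by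
  have hE3 : 0 < |E3| := abs_pos.2 h
  set L : ℝ := (|E4| + 1) / |E3| with hL
  have hL0 : 0 < L := by positivity
  have hLE : L * |E3| = |E4| + 1 := by rw [hL]; field_simp
  set a : ℝ := L + |E1| + |E2| + 1 with ha
  set e : ℝ := a - E1 with he
  have h1 : 0 ≤ |E1| := abs_nonneg E1
  have h2 : 0 ≤ |E2| := abs_nonneg E2
  have h3 : E1 ≤ |E1| := le_abs_self E1
  have h4 : -|E2| ≤ E2 := neg_abs_le E2
  have h5 : E4 ≤ |E4| := le_abs_self E4
  have ha0 : 0 < a := by linarith
  have he0 : 0 < e := by linarith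
  have haL : L ≤ a := by linarith
  have heL : L ≤ e := by linarith
  set β : ℝ := E2 + a * e with hβ
  have hβ0 : 0 < β := by
    have : (|E2| + 1) * 1 ≤ a * e := by
      apply mul_le_mul <;> linarith
    linarith
  set K : ℝ := 4 * β * (1 + |E3|) with hK
  have hK0 : 0 < K := by positivity
  set η : ℝ := min 1 (1 / K) with hη
  have hη0 : 0 < η := lt_min one_pos (by positivity)
  have hη1 : η ≤ 1 := min_le_left _ _
  have hη2 : η * K ≤ 1 := by
    have : η ≤ 1 / K := min_le_right _ _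
    rwa [le_div_iff₀ hK0] at this
  set f : ℝ := η + max E3 0 with hf
  set c : ℝ := η + max (-E3) 0 with hc
  have hf0 : 0 < f := by have := le_max_right E3 0; linarith
  have hc0 : 0 < c := by have := le_max_right (-E3) 0; linarith
  have hcf : c * f = η * (η + |E3|) := by
    rcases le_total 0 E3 with h | h
    · rw [hc, hf, max_eq_left h, max_eq_right (by linarith), abs_of_nonneg h]; ring
    · rw [hc, hf, max_eq_right h, max_eq_left (by linarith), abs_of_nonpos h]; ring
  have hcf2 : f - c = E3 := by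
    rcases le_total 0 E3 with h | h
    · rw [hc, hf, max_eq_left h, max_eq_right (by linarith)]; ring
    · rw [hc, hf, max_eq_right h, max_eq_left (by linarith)]; ring
  have hsum : |E3| ≤ f + c := by
    rcases le_total 0 E3 with h | h
    · rw [hc, hf, max_eq_left h, max_eq_right (by linarith), abs_of_nonneg h]; linarith
    · rw [hc, hf, max_eq_right h, max_eq_left (by linarith), abs_of_nonpos h]; linarith
  set S : ℝ := a * f + e * c - E4 with hS
  have hS1 : 1 ≤ S := by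
    have e1 : L * f ≤ a * f := mul_le_mul_of_nonneg_right haL hf0.le
    have e2 : L * c ≤ e * c := mul_le_mul_of_nonneg_right heL hc0.le
    have e3 : L * |E3| ≤ L * (f + c) := mul_le_mul_of_nonneg_left hsum hL0.le
    have e4 : L * (f + c) = L * f + L * c := by ring
    rw [hS]
    linarith
  have hdisc : 4 * β * (c * f) ≤ S ^ 2 := by
    rw [hcf]
    calc 4 * β * (η * (η + |E3|)) ≤ 4 * β * (η * (1 + |E3|)) := by
          apply mul_le_mul_of_nonneg_left _ (by positivity)
          apply mul_le_mul_of_nonneg_left _ hη0.le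
          linarith
      _ = η * K := by rw [hK]; ring
      _ ≤ 1 := hη2
      _ ≤ S ^ 2 := by nlinarith
  obtain ⟨b, d, hb, hd, hbd, hbS⟩ := quad_solve β S c f hβ0 (by linarith) hc0 hf0 hdisc
  refine ⟨a, b, c, d, e, f, ha0, hb, hc0, hd, he0, hf0, by rw [he]; ring, ?_, hcf2, ?_⟩
  · rw [hbd, hβ]; ring
  · linear_combination -hbS - hS

lemma n4_charpoly (a b c d e f g h i y : ℝ) :
    (!![a, b, -c, 0; -d, -e, f, 0; 0, 0, 0, g; h, i, y, 0] :
      Matrix (Fin 4) (Fin 4) ℝ).charpoly =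
      X ^ 4 - C (a - e) * X ^ 3 + C (b * d - a * e - g * y) * X ^ 2
        - C (g * (f * i - c * h) - (a - e) * g * y) * X
        + C (-(g * (b * f * h + c * d * i - e * c * h - a * f * i)) - g * y * (b * d - a * e)) := by
  simp only [Matrix.charpoly, Matrix.charmatrix, Matrix.det_succ_row_zero, Fin.sum_univ_succ,
    Matrix.scalar_apply]
  simp [Fin.succAbove, Matrix.submatrix]
  ring

/-- The inertially arbitrary four by four pattern. -/
def N4 : SignPattern 4 := !![1, 1, -1, 0; -1, -1, 1, 0; 0, 0, 0, 1; 1, 1, 0, 0]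

/-- Its superpattern with `+` in position `(4,3)`. -/
def N4' : SignPattern 4 := !![1, 1, -1, 0; -1, -1, 1, 0; 0, 0, 0, 1; 1, 1, 1, 0]

lemma n4_sup : IsSuperpattern N4' N4 := by
  intro i j
  fin_cases i <;> fin_cases j <;> simp [N4, N4']

lemma n4_eigs (E1 E2 E3 E4 : ℝ) (hE : E3 ≠ 0 ∨ (E1 = 0 ∧ E2 = 0 ∧ E3 = 0 ∧ E4 = 0))
    (z1 z2 z3 z4 : ℂ) (h1 : (E1 : ℂ) = z1 + z2 + z3 + z4)
    (h2 : (E2 : ℂ) = z1 * z2 + z1 * z3 + z1 * z4 + z2 * z3 + z2 * z4 + z3 * z4)
    (h3 : (E3 : ℂ) = z1 * z2 * z3 + z1 * z2 * z4 + z1 * z3 * z4 + z2 * z3 * z4)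
    (h4 : (E4 : ℂ) = z1 * z2 * z3 * z4) :
    ∃ B, Realizes N4 B ∧ eigs B = {z1, z2, z3, z4} := by
  have key : ∃ a b c d e f : ℝ,
    0 < a ∧ 0 < b ∧ 0 < c ∧ 0 < d ∧ 0 < e ∧ 0 < f ∧
    a - e = E1 ∧ b * d - a * e = E2 ∧ f - c = E3 ∧ a * f + e * c - b * f - c * d = E4 := by
    rcases hE with h | ⟨rfl, rfl, rfl, rfl⟩
    · exact n4_real E1 E2 E3 E4 h
    · exact ⟨1, 1, 1, 1, 1, 1, by norm_num, by norm_num, by norm_num, by norm_num, by norm_num,
        by norm_num, by norm_num, by norm_num, by norm_num, by norm_num⟩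
  obtain ⟨a, b, c, d, e, f, ha, hb, hc, hd, he, hf, e1, e2, e3, e4⟩ := key
  refine ⟨!![a, b, -c, 0; -d, -e, f, 0; 0, 0, 0, 1; 1, 1, 0, 0], ?_, ?_⟩
  · intro i j
    fin_cases i <;> fin_cases j <;>
      simp [N4, sign_pos, sign_neg, ha, hb, hc, hd, he, hf]
  · have hp : (!![a, b, -c, 0; -d, -e, f, 0; 0, 0, 0, 1; 1, 1, 0, 0] :
        Matrix (Fin 4) (Fin 4) ℝ).charpoly =
        X ^ 4 - C E1 * X ^ 3 + C E2 * X ^ 2 - C E3 * X + C E4 := by
      rw [n4_charpoly a b c d e f 1 1 1 0]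
      have r2 : b * d - a * e - 1 * 0 = E2 := by rw [← e2]; ring
      have r3 : 1 * (f * 1 - c * 1) - (a - e) * 1 * 0 = E3 := by rw [← e3]; ring
      have r4 : -(1 * (b * f * 1 + c * d * 1 - e * c * 1 - a * f * 1)) -
        1 * 0 * (b * d - a * e) = E4 := by rw [← e4]; ring
      rw [r2, r3, r4, e1]
    have hm : (!![a, b, -c, 0; -d, -e, f, 0; 0, 0, 0, 1; 1, 1, 0, 0] :
        Matrix (Fin 4) (Fin 4) ℝ).charpoly.map (algebraMap ℝ ℂ) =
        (Multiset.map (fun z : ℂ => X - C z) {z1, z2, z3, z4}).prod := by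
      rw [hp]
      simp only [Polynomial.map_add, Polynomial.map_sub, Polynomial.map_mul, Polynomial.map_pow,
        Polynomial.map_X, Polynomial.map_C, Complex.coe_algebraMap, h1, h2, h3, h4,
        Multiset.insert_eq_cons, Multiset.map_cons, Multiset.prod_cons, Multiset.map_singleton,
        Multiset.prod_singleton, map_add, map_mul]
      ring
    rw [eigs, hm, Polynomial.roots_multiset_prod_X_sub_C]

lemma n4_iap : InertiallyArbitrary N4 := by
  intro np nm nz hsum
  have hI : Complex.I * Complex.I = -1 := Complex.I_mul_I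
  have main : ∃ (z1 z2 z3 z4 : ℂ) (E1 E2 E3 E4 : ℝ),
      (E3 ≠ 0 ∨ (E1 = 0 ∧ E2 = 0 ∧ E3 = 0 ∧ E4 = 0)) ∧ (E1 : ℂ) = z1 + z2 + z3 + z4 ∧
      (E2 : ℂ) = z1 * z2 + z1 * z3 + z1 * z4 + z2 * z3 + z2 * z4 + z3 * z4 ∧
      (E3 : ℂ) = z1 * z2 * z3 + z1 * z2 * z4 + z1 * z3 * z4 + z2 * z3 * z4 ∧
      (E4 : ℂ) = z1 * z2 * z3 * z4 ∧
      (∀ B : Matrix (Fin 4) (Fin 4) ℝ, eigs B = {z1, z2, z3, z4} → HasInertia B np nm nz) := by
    have hform : ∀ z1 z2 z3 z4 : ℂ, ∀ B : Matrix (Fin 4) (Fin 4) ℝ, eigs B = {z1, z2, z3, z4} →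
        ((if 0 < z1.re then 1 else 0) + (if 0 < z2.re then 1 else 0) +
          (if 0 < z3.re then 1 else 0) + (if 0 < z4.re then 1 else 0) = np) →
        ((if z1.re < 0 then 1 else 0) + (if z2.re < 0 then 1 else 0) +
          (if z3.re < 0 then 1 else 0) + (if z4.re < 0 then 1 else 0) = nm) →
        ((if z1.re = 0 then 1 else 0) + (if z2.re = 0 then 1 else 0) +
          (if z3.re = 0 then 1 else 0) + (if z4.re = 0 then 1 else 0) = nz) →
        HasInertia B np nm nz := by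
      classical
      intro z1 z2 z3 z4 B hB h1 h2 h3
      refine ⟨?_, ?_, ?_⟩
      · rw [hB, ← h1]
        simp only [Multiset.insert_eq_cons, Multiset.countP_cons, ← Multiset.cons_zero,
          Multiset.countP_zero]
        split_ifs <;> rfl
      · rw [hB, ← h2]
        simp only [Multiset.insert_eq_cons, Multiset.countP_cons, ← Multiset.cons_zero,
          Multiset.countP_zero]
        split_ifs <;> rfl
      · rw [hB, ← h3]
        simp only [Multiset.insert_eq_cons, Multiset.countP_cons, ← Multiset.cons_zero,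
          Multiset.countP_zero]
        split_ifs <;> rfl
    have hnz : nz ≤ 4 := by omega
    have hnm : nm ≤ 4 := by omega
    interval_cases nz
    · interval_cases nm
      · obtain rfl : np = 4 := by omega
        refine ⟨1, 1, 1, 1, 4, 6, 4, 1, Or.inl (by norm_num), ?_, ?_, ?_, ?_,
          fun B hB => hform _ _ _ _ B hB ?_ ?_ ?_⟩ <;> norm_num
      · obtain rfl : np = 3 := by omega
        refine ⟨1, 1, 1, -1, 2, 0, -2, -1, Or.inl (by norm_num), ?_, ?_, ?_, ?_,
          fun B hB => hform _ _ _ _ B hB ?_ ?_ ?_⟩ <;> norm_num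
      · obtain rfl : np = 2 := by omega
        refine ⟨1, 1, -1, -2, -1, -3, 1, 2, Or.inl (by norm_num), ?_, ?_, ?_, ?_,
          fun B hB => hform _ _ _ _ B hB ?_ ?_ ?_⟩ <;> norm_num
      · obtain rfl : np = 1 := by omega
        refine ⟨1, -1, -1, -1, -2, 0, 2, -1, Or.inl (by norm_num), ?_, ?_, ?_, ?_,
          fun B hB => hform _ _ _ _ B hB ?_ ?_ ?_⟩ <;> norm_num
      · obtain rfl : np = 0 := by omega
        refine ⟨-1, -1, -1, -1, -4, 6, -4, 1, Or.inl (by norm_num), ?_, ?_, ?_, ?_,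
          fun B hB => hform _ _ _ _ B hB ?_ ?_ ?_⟩ <;> norm_num
    · have hnm3 : nm ≤ 3 := by omega
      interval_cases nm
      · obtain rfl : np = 3 := by omega
        refine ⟨1, 1, 1, 0, 3, 3, 1, 0, Or.inl (by norm_num), ?_, ?_, ?_, ?_,
          fun B hB => hform _ _ _ _ B hB ?_ ?_ ?_⟩ <;> norm_num
      · obtain rfl : np = 2 := by omega
        refine ⟨1, 1, -1, 0, 1, -1, -1, 0, Or.inl (by norm_num), ?_, ?_, ?_, ?_,
          fun B hB => hform _ _ _ _ B hB ?_ ?_ ?_⟩ <;> norm_num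
      · obtain rfl : np = 1 := by omega
        refine ⟨1, -1, -1, 0, -1, -1, 1, 0, Or.inl (by norm_num), ?_, ?_, ?_, ?_,
          fun B hB => hform _ _ _ _ B hB ?_ ?_ ?_⟩ <;> norm_num
      · obtain rfl : np = 0 := by omega
        refine ⟨-1, -1, -1, 0, -3, 3, -1, 0, Or.inl (by norm_num), ?_, ?_, ?_, ?_,
          fun B hB => hform _ _ _ _ B hB ?_ ?_ ?_⟩ <;> norm_num
    · have hnm3 : nm ≤ 2 := by omega
      interval_cases nm
      · obtain rfl : np = 2 := by omega
        refine ⟨Complex.I, -Complex.I, 1, 1, 2, 2, 2, 1, Or.inl (by norm_num), ?_, ?_, ?_, ?_,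
          fun B hB => hform _ _ _ _ B hB ?_ ?_ ?_⟩
        · push_cast; ring
        · push_cast; linear_combination hI
        · push_cast; linear_combination 2 * hI
        · push_cast; linear_combination hI
        all_goals norm_num
      · obtain rfl : np = 1 := by omega
        refine ⟨Complex.I, -Complex.I, 1, -2, -1, -1, -1, -2, Or.inl (by norm_num), ?_, ?_, ?_, ?_,
          fun B hB => hform _ _ _ _ B hB ?_ ?_ ?_⟩
        · push_cast; ring
        · push_cast; linear_combination hI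
        · push_cast; linear_combination -hI
        · push_cast; linear_combination -2 * hI
        all_goals norm_num
      · obtain rfl : np = 0 := by omega
        refine ⟨Complex.I, -Complex.I, -1, -1, -2, 2, -2, 1, Or.inl (by norm_num), ?_, ?_, ?_, ?_,
          fun B hB => hform _ _ _ _ B hB ?_ ?_ ?_⟩
        · push_cast; ring
        · push_cast; linear_combination hI
        · push_cast; linear_combination -2 * hI
        · push_cast; linear_combination hI
        all_goals norm_num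
    · have hnm3 : nm ≤ 1 := by omega
      interval_cases nm
      · obtain rfl : np = 1 := by omega
        refine ⟨Complex.I, -Complex.I, 0, 1, 1, 1, 1, 0, Or.inl (by norm_num), ?_, ?_, ?_, ?_,
          fun B hB => hform _ _ _ _ B hB ?_ ?_ ?_⟩
        · push_cast; ring
        · push_cast; linear_combination hI
        · push_cast; linear_combination hI
        · push_cast; ring
        all_goals norm_num
      · obtain rfl : np = 0 := by omega
        refine ⟨Complex.I, -Complex.I, 0, -1, -1, 1, -1, 0, Or.inl (by norm_num), ?_, ?_, ?_, ?_,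
          fun B hB => hform _ _ _ _ B hB ?_ ?_ ?_⟩
        · push_cast; ring
        · push_cast; linear_combination hI
        · push_cast; linear_combination -hI
        · push_cast; ring
        all_goals norm_num
    · obtain rfl : np = 0 := by omega
      obtain rfl : nm = 0 := by omega
      refine ⟨0, 0, 0, 0, 0, 0, 0, 0, Or.inr (by simp), ?_, ?_, ?_, ?_,
          fun B hB => hform _ _ _ _ B hB ?_ ?_ ?_⟩ <;> norm_num
  obtain ⟨z1, z2, z3, z4, E1, E2, E3, E4, hE, h1, h2, h3, h4, hB⟩ := main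
  obtain ⟨B, hR, hB2⟩ := n4_eigs E1 E2 E3 E4 hE z1 z2 z3 z4 h1 h2 h3 h4
  exact ⟨B, hR, hB B hB2⟩

lemma four_roots (p : ℂ[X]) (hp : p.Monic) (hd : p.natDegree = 4)
    (h : ∀ z ∈ p.roots, z.re = 0) (hc : Multiset.card p.roots = 4) :
    ∃ y1 y2 y3 y4 : ℝ, p = (X - C (y1 * Complex.I)) * (X - C (y2 * Complex.I)) *
      (X - C (y3 * Complex.I)) * (X - C (y4 * Complex.I)) := by
  have hprod : (p.roots.map (fun a => X - C a)).prod = p :=
    Polynomial.prod_multiset_X_sub_C_of_monic_of_roots_card_eq hp (by rw [hc, hd])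
  obtain ⟨l, hl⟩ : ∃ l : List ℂ, (l : Multiset ℂ) = p.roots := Quot.exists_rep _
  rw [← hl] at hprod hc h
  have hlen : l.length = 4 := by simpa using hc
  match l, hlen with
  | [z1, z2, z3, z4], _ =>
    have him : ∀ z ∈ ([z1, z2, z3, z4] : List ℂ), z = (z.im : ℂ) * Complex.I := by
      intro z hz
      have := h z (by simpa using hz)
      apply Complex.ext <;> simp [this]
    refine ⟨z1.im, z2.im, z3.im, z4.im, ?_⟩
    rw [← him z1 (by simp), ← him z2 (by simp), ← him z3 (by simp), ← him z4 (by simp), ← hprod]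
    simp [mul_assoc]

lemma vieta_im (E1 E2 E3 E4 y1 y2 y3 y4 : ℝ)
    (h : (X ^ 4 - C E1 * X ^ 3 + C E2 * X ^ 2 - C E3 * X + C E4 : ℝ[X]).map (algebraMap ℝ ℂ) =
      (X - C (y1 * Complex.I)) * (X - C (y2 * Complex.I)) *
      (X - C (y3 * Complex.I)) * (X - C (y4 * Complex.I))) :
    E1 = 0 ∧ E3 = 0 ∧ 0 ≤ E2 ∧ 0 ≤ E4 := by
  have hr : (X - C (y1 * Complex.I)) * (X - C (y2 * Complex.I)) *
      (X - C (y3 * Complex.I)) * (X - C (y4 * Complex.I)) =
      X ^ 4 - C ((y1 + y2 + y3 + y4 : ℝ) * Complex.I) * X ^ 3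
        + C ((-(y1 * y2 + y1 * y3 + y1 * y4 + y2 * y3 + y2 * y4 + y3 * y4) : ℝ) : ℂ) * X ^ 2
        - C ((-(y1 * y2 * y3 + y1 * y2 * y4 + y1 * y3 * y4 + y2 * y3 * y4) : ℝ) * Complex.I) * X
        + C ((y1 * y2 * y3 * y4 : ℝ) : ℂ) := by
    have hI : (C Complex.I : ℂ[X]) * C Complex.I = -1 := by
      rw [← C_mul, Complex.I_mul_I]; simp
    simp only [Complex.ofReal_add, Complex.ofReal_mul, Complex.ofReal_neg, C_add, C_mul, C_neg]
    set i : ℂ[X] := C Complex.I with hi
    set a : ℂ[X] := C (y1 : ℂ)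
    set b : ℂ[X] := C (y2 : ℂ)
    set c : ℂ[X] := C (y3 : ℂ)
    set d : ℂ[X] := C (y4 : ℂ)
    have h2 : i ^ 2 = -1 := by rw [sq]; exact hI
    have h3 : i ^ 3 = -i := by rw [pow_succ, h2]; ring
    have h4 : i ^ 4 = 1 := by rw [show i ^ 4 = i ^ 2 * i ^ 2 by ring, h2]; ring
    ring_nf
    rw [h2, h3, h4]
    ring
  rw [hr] at h
  have c3 := congrArg (fun p => p.coeff 3) h
  have c2 := congrArg (fun p => p.coeff 2) h
  have c1 := congrArg (fun p => p.coeff 1) h
  have c0 := congrArg (fun p => p.coeff 0) h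
  simp only [Polynomial.map_add, Polynomial.map_sub, Polynomial.map_mul, Polynomial.map_pow,
    Polynomial.map_X, Polynomial.map_C, coeff_add, coeff_sub, coeff_C_mul, coeff_X_pow, coeff_X,
    coeff_C] at c3 c2 c1 c0
  norm_num at c3 c2 c1 c0
  have c3r := congrArg Complex.re c3
  have c3i := congrArg Complex.im c3
  have c2r := congrArg Complex.re c2
  have c1r := congrArg Complex.re c1
  have c1i := congrArg Complex.im c1
  have c0r := congrArg Complex.re c0
  simp at c3r c3i c2r c1r c1i c0r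
  have hsum : y1 + y2 = -(y3 + y4) := by linarith
  refine ⟨c3r, c1r, ?_, ?_⟩
  · have e : 2 * E2 = y1 ^ 2 + y2 ^ 2 + y3 ^ 2 + y4 ^ 2 := by
      have e0 : (y1 + y2 + y3 + y4) ^ 2 = 0 := by rw [← c3i]; ring
      rw [c2r]
      linear_combination (-1) * e0
    have : 0 ≤ y1 ^ 2 + y2 ^ 2 + y3 ^ 2 + y4 ^ 2 := by positivity
    linarith
  · have e : (y3 + y4) * (y1 * y2 - y3 * y4) = 0 := by
      have e1 : y1 * y2 * y3 + y1 * y2 * y4 + y1 * y3 * y4 + y2 * y3 * y4 = 0 := by linarith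
      have e2 : y1 * y2 * (y3 + y4) + y3 * y4 * (y1 + y2) = 0 := by linear_combination e1
      rw [hsum] at e2
      linear_combination e2
    rw [c0r]
    rcases mul_eq_zero.1 e with h5 | h5
    · have h6 : y4 = -y3 := by linarith
      have h7 : y2 = -y1 := by linarith
      rw [h6, h7]
      have : y1 * -y1 * y3 * -y3 = (y1 * y3) ^ 2 := by ring
      rw [this]
      positivity
    · have h6 : y1 * y2 = y3 * y4 := by linarith
      have : y1 * y2 * y3 * y4 = (y1 * y2) * (y3 * y4) := by ring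
      rw [this, h6]
      exact mul_self_nonneg _

lemma n4'_not_im (a b c d e f g h i y : ℝ) (ha : 0 < a) (hb : 0 < b) (hc : 0 < c) (hd : 0 < d)
    (hf : 0 < f) (hg : 0 < g) (hh : 0 < h) (hi : 0 < i) (hy : 0 < y)
    (h1 : a - e = 0) (h3 : g * (f * i - c * h) - (a - e) * g * y = 0)
    (h2 : 0 ≤ b * d - a * e - g * y)
    (h4 : 0 ≤ -(g * (b * f * h + c * d * i - e * c * h - a * f * i)) -
      g * y * (b * d - a * e)) : False := by
  have hea : e = a := by linarith
  subst hea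
  have hP : c * h = f * i := by
    have : g * (f * i - c * h) = 0 := by linear_combination h3 + h1 * g * y
    rcases mul_eq_zero.1 this with h | h
    · exact absurd h hg.ne'
    · linarith
  have hgy : 0 < g * y := mul_pos hg hy
  have hbd : e * e < b * d := by linarith
  have hlt : b * f * h + c * d * i < 2 * e * (f * i) := by
    have e1 : 0 < g * y * (b * d - e * e) := mul_pos hgy (by linarith)
    have e2 : 0 < g * (2 * e * (f * i) - (b * f * h + c * d * i)) := by
      have e3 : g * (2 * e * (f * i) - (b * f * h + c * d * i)) =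
        -(g * (b * f * h + c * d * i - e * c * h - e * f * i)) := by
        linear_combination (-g * e) * hP
      rw [e3]; linarith
    have := pos_of_mul_pos_right e2 hg.le
    linarith
  have hpos : 0 < b * f * h + c * d * i := by positivity
  have hsq : (b * f * h + c * d * i) ^ 2 < (2 * e * (f * i)) ^ 2 :=
    pow_lt_pow_left₀ hlt hpos.le (by norm_num)
  have hprod : (b * f * h) * (c * d * i) = (b * d) * (f * i) ^ 2 := by
    linear_combination (b * d * f * i) * hP
  have h5 : 4 * ((b * f * h) * (c * d * i)) ≤ (b * f * h + c * d * i) ^ 2 := by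
    nlinarith [sq_nonneg (b * f * h - c * d * i)]
  have h6 : e * e * (f * i) ^ 2 < b * d * (f * i) ^ 2 :=
    mul_lt_mul_of_pos_right hbd (by positivity)
  rw [hprod] at h5
  nlinarith

lemma n4'_not_iap : ¬ InertiallyArbitrary N4' := by
  intro hI
  obtain ⟨B, hB, h1, h2, h3⟩ := hI 0 0 4 (by norm_num)
  have pos : ∀ i j, N4' i j = 1 → 0 < B i j := fun i j h => by
    rw [← sign_eq_one_iff, hB, h]
  have neg : ∀ i j, N4' i j = -1 → 0 < -B i j := fun i j h => by
    have : B i j < 0 := by rw [← sign_eq_neg_one_iff, hB, h]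
    linarith
  have zer : ∀ i j, N4' i j = 0 → B i j = 0 := fun i j h => by
    rw [← sign_eq_zero_iff, hB, h]
  have hBe : B = !![B 0 0, B 0 1, -(-B 0 2), 0; -(-B 1 0), -(-B 1 1), B 1 2, 0;
      0, 0, 0, B 2 3; B 3 0, B 3 1, B 3 2, 0] := by
    ext i j
    fin_cases i <;> fin_cases j <;>
      simp [zer 0 3 rfl, zer 1 3 rfl, zer 2 0 rfl, zer 2 1 rfl, zer 2 2 rfl, zer 3 3 rfl]
  have hcp := n4_charpoly (B 0 0) (B 0 1) (-B 0 2) (-B 1 0) (-B 1 1) (B 1 2) (B 2 3) (B 3 0)
    (B 3 1) (B 3 2)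
  rw [← hBe] at hcp
  have hdeg : B.charpoly.natDegree = 4 := by
    rw [Matrix.charpoly_natDegree_eq_dim, Fintype.card_fin]
  have hmon : (B.charpoly.map (algebraMap ℝ ℂ)).Monic := (Matrix.charpoly_monic B).map _
  have hdeg2 : (B.charpoly.map (algebraMap ℝ ℂ)).natDegree = 4 := by
    rw [Polynomial.natDegree_map, hdeg]
  have hcard : Multiset.card (eigs B) ≤ 4 := by
    have := Polynomial.card_roots' (B.charpoly.map (algebraMap ℝ ℂ))
    rwa [hdeg2] at this
  have hcard2 : Multiset.card (eigs B) = 4 := by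
    exact le_antisymm hcard (h3.symm.le.trans (Multiset.countP_le_card _ _))
  have hall : ∀ z ∈ eigs B, z.re = 0 := by
    have := Multiset.countP_eq_card.1 (h3.trans hcard2.symm)
    exact this
  obtain ⟨y1, y2, y3, y4, hy⟩ := four_roots _ hmon hdeg2 hall hcard2
  rw [hcp] at hy
  obtain ⟨e1, e3, e2, e4⟩ := vieta_im _ _ _ _ _ _ _ _ hy
  exact n4'_not_im (B 0 0) (B 0 1) (-B 0 2) (-B 1 0) (-B 1 1) (B 1 2) (B 2 3) (B 3 0)
    (B 3 1) (B 3 2) (pos 0 0 rfl) (pos 0 1 rfl) (neg 0 2 rfl) (neg 1 0 rfl) (pos 1 2 rfl)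
    (pos 2 3 rfl) (pos 3 0 rfl) (pos 3 1 rfl) (pos 3 2 rfl) e1 e3 e2 e4

/-- There is a spectrally arbitrary sign pattern with a superpattern that is not spectrally
arbitrary, and there is an inertially arbitrary sign pattern with a superpattern that is not
inertially arbitrary. -/
theorem result :
    (∃ (n : ℕ) (A A' : SignPattern n),
      SpectrallyArbitrary A ∧ IsSuperpattern A' A ∧ ¬ SpectrallyArbitrary A') ∧
    (∃ (n : ℕ) (A A' : SignPattern n),
      InertiallyArbitrary A ∧ IsSuperpattern A' A ∧ ¬ InertiallyArbitrary A') :=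
  ⟨⟨6, blk M4 T2, blk M4' T2, sap, sup, not_sap⟩, ⟨4, N4, N4', n4_iap, n4_sup, n4'_not_iap⟩⟩

end Pool.Agent.Results.MP_557f7f_co.BothQuestions
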