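import Mathlib

set_option autoImplicit false

namespace Pool.Agent.Results.MP_557f7f_co.NonSapSuperpattern

open Polynomial Matrix

/-- An `n × n` sign pattern: a matrix with entries in `{+, -, 0}`. -/
abbrev SignPattern (n : ℕ) := Matrix (Fin n) (Fin n) SignType

/-- `B` is a realization of the sign pattern `A`. -/
def Realizes {n : ℕ} (A : SignPattern n) (B : Matrix (Fin n) (Fin n) ℝ) : Prop :=
  ∀ i j, SignType.sign (B i j) = A i j

/-- `A` is spectrally arbitrary: every monic real polynomial of degree `n` is the characteristic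
polynomial of some realization. -/
def SpectrallyArbitrary {n : ℕ} (A : SignPattern n) : Prop :=
  ∀ p : ℝ[X], p.Monic → p.natDegree = n → ∃ B, Realizes A B ∧ B.charpoly = p

/-- `A'` is a superpattern of `A`. -/
def IsSuperpattern {n : ℕ} (A' A : SignPattern n) : Prop :=
  ∀ i j, A i j ≠ 0 → A' i j = A i j

/-! ### The two by two pattern -/

lemma t2_real (s p : ℝ) : ∃ a b c d : ℝ, 0 < a ∧ 0 < b ∧ 0 < c ∧ 0 < d ∧
    (!![a, b; -c, -d] : Matrix (Fin 2) (Fin 2) ℝ).charpoly = X ^ 2 - C s * X + C p := by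
  set u : ℝ := |s| + |p| + 1 with hu
  have h1 : 0 ≤ |s| := abs_nonneg s
  have h2 : 0 ≤ |p| := abs_nonneg p
  have h3 : s ≤ |s| := le_abs_self s
  have h4 : -|p| ≤ p := neg_abs_le p
  have h5 : 0 < p + u * (u - s) := by
    have : 1 * (|p| + 1) ≤ (u - s) * u := by
      apply mul_le_mul <;> linarith
    linarith
  refine ⟨u, 1, p + u * (u - s), u - s, by linarith, one_pos, h5, by linarith, ?_⟩
  rw [Matrix.charpoly_fin_two, Matrix.trace_fin_two, Matrix.det_fin_two]
  simp only [Matrix.of_apply, Matrix.cons_val', Matrix.cons_val_zero, Matrix.cons_val_one,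
    Matrix.cons_val_fin_one]
  congr 3
  · congr 1
    ring
  · ring

/-! ### The four by four pattern -/

lemma m4_charpoly (a b c d e f g h i z : ℝ) :
    (!![a, b, -c, z; -d, -e, f, 0; 0, 0, 0, -g; h, i, 0, 0] :
      Matrix (Fin 4) (Fin 4) ℝ).charpoly =
      X ^ 4 - C (a - e) * X ^ 3 + C (b * d - a * e - z * h) * X ^ 2
        - C (g * (c * h - f * i) + z * (e * h - d * i)) * X
        + C (g * (b * f * h + c * d * i - e * c * h - a * f * i)) := by
  simp only [Matrix.charpoly, Matrix.charmatrix, Matrix.det_succ_row_zero, Fin.sum_univ_succ,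
    Matrix.scalar_apply]
  simp [Fin.succAbove, Matrix.submatrix]
  ring

lemma m4_pos (E1 E2 E3 E4 : ℝ) (h : 0 < E4) : ∃ a b c d e f : ℝ,
    0 < a ∧ 0 < b ∧ 0 < c ∧ 0 < d ∧ 0 < e ∧ 0 < f ∧
    a - e = E1 ∧ b * d - a * e = E2 ∧ c - f = E3 ∧ b * f + c * d - e * c - a * f = E4 := by
  set a : ℝ := |E1| + |E2| + 1 with ha
  set e : ℝ := a - E1 with he
  have h1 : 0 ≤ |E1| := abs_nonneg E1
  have h2 : 0 ≤ |E2| := abs_nonneg E2
  have h3 : E1 ≤ |E1| := le_abs_self E1
  have h4 : -|E2| ≤ E2 := neg_abs_le E2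
  have ha0 : 0 < a := by linarith
  have he0 : 0 < e := by linarith
  set β : ℝ := E2 + a * e with hβ
  have hβ0 : 0 < β := by
    have : (|E2| + 1) * 1 ≤ a * e := by
      apply mul_le_mul <;> linarith
    linarith
  set K : ℝ := 4 * β * (1 + |E3|) with hK
  have hK0 : 0 < K := by positivity
  set η : ℝ := min 1 (E4 ^ 2 / K) with hη
  have hη0 : 0 < η := lt_min one_pos (by positivity)
  have hη1 : η ≤ 1 := min_le_left _ _
  have hη2 : η * K ≤ E4 ^ 2 := by
    have : η ≤ E4 ^ 2 / K := min_le_right _ _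
    rwa [le_div_iff₀ hK0] at this
  set c : ℝ := η + max E3 0 with hc
  set f : ℝ := η + max (-E3) 0 with hf
  have hc0 : 0 < c := by have := le_max_right E3 0; linarith
  have hf0 : 0 < f := by have := le_max_right (-E3) 0; linarith
  have hcf : c * f = η * (η + |E3|) := by
    rcases le_total 0 E3 with h | h
    · rw [hc, hf, max_eq_left h, max_eq_right (by linarith), abs_of_nonneg h]; ring
    · rw [hc, hf, max_eq_right h, max_eq_left (by linarith), abs_of_nonpos h]; ring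
  have hcf2 : c - f = E3 := by
    rcases le_total 0 E3 with h | h
    · rw [hc, hf, max_eq_left h, max_eq_right (by linarith)]; ring
    · rw [hc, hf, max_eq_right h, max_eq_left (by linarith)]; ring
  set S : ℝ := E4 + e * c + a * f with hS
  have hS0 : E4 < S := by
    have : 0 < e * c := by positivity
    have : 0 < a * f := by positivity
    linarith
  have hdisc : 0 ≤ S ^ 2 - 4 * β * (c * f) := by
    have h5 : 4 * β * (c * f) ≤ E4 ^ 2 := by
      rw [hcf]
      calc 4 * β * (η * (η + |E3|)) ≤ 4 * β * (η * (1 + |E3|)) := by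
            apply mul_le_mul_of_nonneg_left _ (by positivity)
            apply mul_le_mul_of_nonneg_left _ hη0.le
            linarith
        _ = η * K := by rw [hK]; ring
        _ ≤ E4 ^ 2 := hη2
    have h6 : E4 ^ 2 ≤ S ^ 2 := pow_le_pow_left₀ h.le hS0.le 2
    linarith
  set R : ℝ := Real.sqrt (S ^ 2 - 4 * β * (c * f)) with hR
  have hR0 : 0 ≤ R := Real.sqrt_nonneg _
  have hR2 : R ^ 2 = S ^ 2 - 4 * β * (c * f) := Real.sq_sqrt hdisc
  set b : ℝ := (S + R) / (2 * f) with hb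
  have hb0 : 0 < b := by
    apply div_pos _ (by positivity)
    linarith
  have hbf : 2 * f * b = S + R := by rw [hb]; field_simp
  have hquad : b * f + c * (β / b) = S := by
    field_simp
    have : 4 * f * (b ^ 2 * f + c * β - b * S) = 0 := by
      have e1 : 4 * f * (b ^ 2 * f + c * β - b * S) =
        (2 * f * b) ^ 2 + 4 * β * (c * f) - 2 * (2 * f * b) * S := by ring
      rw [e1, hbf]
      linear_combination hR2
    have h7 : b ^ 2 * f + c * β - b * S = 0 := by
      rcases mul_eq_zero.1 this with h | h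
      · exfalso; linarith
      · exact h
    linear_combination h7
  refine ⟨a, b, c, β / b, e, f, ha0, hb0, hc0, by positivity, he0, hf0, by rw [he]; ring, ?_,
    hcf2, ?_⟩
  · rw [mul_div_cancel₀ _ hb0.ne', hβ]; ring
  · linear_combination hquad + hS

/-- Quartics realized by the four by four pattern. -/
def M4Real (q : ℝ[X]) : Prop := ∃ a b c d e f : ℝ,
    0 < a ∧ 0 < b ∧ 0 < c ∧ 0 < d ∧ 0 < e ∧ 0 < f ∧
    (!![a, b, -c, 0; -d, -e, f, 0; 0, 0, 0, -1; 1, 1, 0, 0] :
      Matrix (Fin 4) (Fin 4) ℝ).charpoly = q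

/-- A monic quadratic. -/
noncomputable def quad (s t : ℝ) : ℝ[X] := X ^ 2 - C s * X + C t

lemma m4_of_coeffs (a b c d e f : ℝ) : (!![a, b, -c, 0; -d, -e, f, 0; 0, 0, 0, -1; 1, 1, 0, 0] :
      Matrix (Fin 4) (Fin 4) ℝ).charpoly =
      X ^ 4 - C (a - e) * X ^ 3 + C (b * d - a * e) * X ^ 2
        - C (c - f) * X + C (b * f + c * d - e * c - a * f) := by
  rw [m4_charpoly a b c d e f 1 1 1 0]
  have e1 : b * d - a * e - 0 * 1 = b * d - a * e := by ring
  have e2 : 1 * (c * 1 - f * 1) + 0 * (e * 1 - d * 1) = c - f := by ring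
  have e3 : 1 * (b * f * 1 + c * d * 1 - e * c * 1 - a * f * 1) =
    b * f + c * d - e * c - a * f := by ring
  rw [e1, e2, e3]

lemma pair_pos (a1 b1 a2 b2 : ℝ) (h : 0 < b1 * b2) : M4Real (quad a1 b1 * quad a2 b2) := by
  obtain ⟨a, b, c, d, e, f, ha, hb, hc, hd, he, hf, h1, h2, h3, h4⟩ :=
    m4_pos (a1 + a2) (b1 + b2 + a1 * a2) (a1 * b2 + a2 * b1) (b1 * b2) h
  refine ⟨a, b, c, d, e, f, ha, hb, hc, hd, he, hf, ?_⟩
  rw [m4_of_coeffs, h1, h2, h3, h4, quad, quad]
  simp only [map_add, map_mul]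
  ring

lemma pair_zero (a1 a2 : ℝ) : M4Real (quad a1 0 * quad a2 0) := by
  set a : ℝ := |a1| + |a2| + 1 with ha
  have h1 : 0 ≤ |a1| := abs_nonneg a1
  have h2 : 0 ≤ |a2| := abs_nonneg a2
  have h3 : a1 ≤ |a1| := le_abs_self a1
  have h4 : a2 ≤ |a2| := le_abs_self a2
  refine ⟨a, a - a2, 1, a - a1, a - a1 - a2, 1, by linarith, by linarith, one_pos, by linarith,
    by linarith, one_pos, ?_⟩
  rw [m4_of_coeffs, quad, quad]
  have e1 : a - (a - a1 - a2) = a1 + a2 := by ring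
  have e2 : (a - a2) * (a - a1) - a * (a - a1 - a2) = a1 * a2 := by ring
  have e3 : (a - a2) * 1 + 1 * (a - a1) - (a - a1 - a2) * 1 - a * 1 = 0 := by ring
  rw [e1, e2, e3]
  simp only [map_add, map_mul, sub_self, map_zero]
  ring

/-- Sextics that have a good factorization. -/
def Good (p : ℝ[X]) : Prop := ∃ (g : ℝ[X]) (s t : ℝ), M4Real g ∧ p = g * quad s t

lemma good_mixed (a1 b1 a2 b2 s : ℝ) (h1 : 0 < b1) (h2 : b2 < 0) :
    Good (quad a1 b1 * quad a2 b2 * quad s 0) := by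
  have hdisc : 0 ≤ a2 ^ 2 - 4 * b2 := by nlinarith [sq_nonneg a2]
  set R : ℝ := Real.sqrt (a2 ^ 2 - 4 * b2) with hR
  have hR0 : 0 ≤ R := Real.sqrt_nonneg _
  have hR2 : R ^ 2 = a2 ^ 2 - 4 * b2 := Real.sq_sqrt hdisc
  have hRa : |a2| < R := by
    apply Real.lt_sqrt_of_sq_lt
    rw [sq_abs]; linarith
  have hRa1 := (abs_lt.1 hRa).1
  have hRa2 := (abs_lt.1 hRa).2
  set α : ℝ := (a2 + R) / 2 with hα
  set γ : ℝ := (R - a2) / 2 with hγ
  have hα0 : 0 < α := by linarith
  have hγ0 : 0 < γ := by linarith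
  have hs : a2 = α - γ := by rw [hα, hγ]; ring
  have hp : b2 = -(α * γ) := by rw [hα, hγ]; linear_combination (1 / 4) * hR2
  rcases lt_trichotomy s 0 with hs0 | hs0 | hs0
  · refine ⟨quad a1 b1 * quad (s - γ) (-(γ * s)), α, 0, pair_pos _ _ _ _ ?_, ?_⟩
    · have : 0 < -(γ * s) := by nlinarith
      positivity
    · rw [hs, hp]
      simp only [quad, map_sub, map_mul, map_neg, map_zero]
      ring
  · refine ⟨quad α 0 * quad (-γ) 0, a1, b1, pair_zero _ _, ?_⟩
    rw [hs, hp, hs0]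
    simp only [quad, map_sub, map_mul, map_neg, map_zero]
    ring
  · refine ⟨quad a1 b1 * quad (α + s) (α * s), -γ, 0, pair_pos _ _ _ _ (by positivity), ?_⟩
    rw [hs, hp]
    simp only [quad, map_sub, map_mul, map_neg, map_zero, map_add]
    ring

lemma good_of_one_zero (a1 b1 a2 b2 s : ℝ) (h : b1 * b2 < 0) :
    Good (quad a1 b1 * quad a2 b2 * quad s 0) := by
  rcases mul_neg_iff.1 h with ⟨h1, h2⟩ | ⟨h1, h2⟩
  · exact good_mixed a1 b1 a2 b2 s h1 h2
  · rw [mul_comm (quad a1 b1)]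
    exact good_mixed a2 b2 a1 b1 s h2 h1

lemma good_all (a1 b1 a2 b2 a3 b3 : ℝ) :
    Good (quad a1 b1 * quad a2 b2 * quad a3 b3) := by
  have r1 : quad a1 b1 * quad a2 b2 * quad a3 b3 = quad a2 b2 * quad a3 b3 * quad a1 b1 := by ring
  have r2 : quad a1 b1 * quad a2 b2 * quad a3 b3 = quad a1 b1 * quad a3 b3 * quad a2 b2 := by ring
  by_cases h12 : 0 < b1 * b2
  · exact ⟨_, _, _, pair_pos _ _ _ _ h12, rfl⟩
  by_cases h13 : 0 < b1 * b3
  · exact ⟨_, _, _, pair_pos _ _ _ _ h13, r2⟩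
  by_cases h23 : 0 < b2 * b3
  · exact ⟨_, _, _, pair_pos _ _ _ _ h23, r1⟩
  by_cases z1 : b1 = 0
  · subst z1
    by_cases z2 : b2 = 0
    · subst z2
      exact ⟨_, _, _, pair_zero _ _, rfl⟩
    by_cases z3 : b3 = 0
    · subst z3
      exact ⟨_, _, _, pair_zero _ _, r2⟩
    · rw [r1]
      apply good_of_one_zero
      exact lt_of_le_of_ne (not_lt.1 h23) (mul_ne_zero z2 z3)
  by_cases z2 : b2 = 0
  · subst z2
    by_cases z3 : b3 = 0
    · subst z3
      exact ⟨_, _, _, pair_zero _ _, r1⟩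
    · rw [r2]
      apply good_of_one_zero
      exact lt_of_le_of_ne (not_lt.1 h13) (mul_ne_zero z1 z3)
  by_cases z3 : b3 = 0
  · subst z3
    apply good_of_one_zero
    exact lt_of_le_of_ne (not_lt.1 h12) (mul_ne_zero z1 z2)
  · exfalso
    rcases lt_or_gt_of_ne z1 with h1 | h1 <;> rcases lt_or_gt_of_ne z2 with h2 | h2 <;>
      rcases lt_or_gt_of_ne z3 with h3 | h3 <;> nlinarith

lemma good_sextic (p : ℝ[X]) (hp : p.Monic) (hd : p.natDegree = 6) : Good p := by
  have h0 : IsMonicOfDegree p (4 + 2) := ⟨hd, hp⟩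
  obtain ⟨q1, f1, hq1, hf1, rfl⟩ := h0.eq_isMonicOfDegree_two_mul_isMonicOfDegree
  have h1 : IsMonicOfDegree f1 (2 + 2) := hf1
  obtain ⟨q2, q3, hq2, hq3, rfl⟩ := h1.eq_isMonicOfDegree_two_mul_isMonicOfDegree
  obtain ⟨a1, b1, rfl⟩ := isMonicOfDegree_two_iff'.1 hq1
  obtain ⟨a2, b2, rfl⟩ := isMonicOfDegree_two_iff'.1 hq2
  obtain ⟨a3, b3, rfl⟩ := isMonicOfDegree_two_iff'.1 hq3
  rw [← mul_assoc]
  exact good_all a1 b1 a2 b2 a3 b3

/-! ### Block patterns -/

/-- The block diagonal matrix on `Fin 6`. -/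
def blk {α : Type} [Zero α] (A : Matrix (Fin 4) (Fin 4) α) (B : Matrix (Fin 2) (Fin 2) α) :
    Matrix (Fin 6) (Fin 6) α :=
  Matrix.reindex (finSumFinEquiv (m := 4) (n := 2)) (finSumFinEquiv (m := 4) (n := 2))
    (Matrix.fromBlocks A 0 0 B)

lemma blk_apply {α : Type} [Zero α] (A : Matrix (Fin 4) (Fin 4) α) (B : Matrix (Fin 2) (Fin 2) α)
    (x y : Fin 4 ⊕ Fin 2) : blk A B (finSumFinEquiv x) (finSumFinEquiv y) =
      Matrix.fromBlocks A 0 0 B x y := by
  simp [blk, Matrix.reindex_apply, Matrix.submatrix_apply]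

lemma blk_charpoly (A : Matrix (Fin 4) (Fin 4) ℝ) (B : Matrix (Fin 2) (Fin 2) ℝ) :
    (blk A B).charpoly = A.charpoly * B.charpoly := by
  rw [blk, Matrix.charpoly_reindex, Matrix.charpoly_fromBlocks_zero₁₂]

/-- The four by four pattern `M₄`. -/
def M4 : Matrix (Fin 4) (Fin 4) SignType := !![1, 1, -1, 0; -1, -1, 1, 0; 0, 0, 0, -1; 1, 1, 0, 0]

/-- The superpattern of `M₄` with `+` in position `(1,4)`. -/
def M4' : Matrix (Fin 4) (Fin 4) SignType := !![1, 1, -1, 1; -1, -1, 1, 0; 0, 0, 0, -1; 1, 1, 0, 0]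

/-- The two by two pattern `T₂`. -/
def T2 : Matrix (Fin 2) (Fin 2) SignType := !![1, 1; -1, -1]

lemma forall_fin6 (P : Fin 6 → Prop) (h : ∀ x : Fin 4 ⊕ Fin 2, P (finSumFinEquiv x)) :
    ∀ i, P i := by
  intro i
  have := h ((finSumFinEquiv (m := 4) (n := 2)).symm i)
  rwa [Equiv.apply_symm_apply] at this

lemma sap : SpectrallyArbitrary (blk M4 T2) := by
  intro p hp hd
  obtain ⟨g, s, t, ⟨a, b, c, d, e, f, ha, hb, hc, hd', he, hf, hg⟩, rfl⟩ := good_sextic p hp hd
  obtain ⟨u, v, w, x, hu, hv, hw, hx, hq⟩ := t2_real s t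
  refine ⟨blk !![a, b, -c, 0; -d, -e, f, 0; 0, 0, 0, -1; 1, 1, 0, 0] !![u, v; -w, -x], ?_, ?_⟩
  · apply forall_fin6
    intro i
    apply forall_fin6
    intro j
    rw [blk_apply, blk_apply]
    rcases i with i | i <;> rcases j with j | j
    · rw [Matrix.fromBlocks_apply₁₁, Matrix.fromBlocks_apply₁₁]
      fin_cases i <;> fin_cases j <;>
        simp [M4, sign_pos, sign_neg, ha, hb, hc, hd', he, hf]
    · simp
    · simp
    · rw [Matrix.fromBlocks_apply₂₂, Matrix.fromBlocks_apply₂₂]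
      fin_cases i <;> fin_cases j <;>
        simp [T2, sign_pos, sign_neg, hu, hv, hw, hx]
  · rw [blk_charpoly, hg, hq, quad]

lemma sup : IsSuperpattern (blk M4' T2) (blk M4 T2) := by
  unfold IsSuperpattern
  apply forall_fin6
  intro i
  apply forall_fin6
  intro j
  rw [blk_apply, blk_apply]
  rcases i with i | i <;> rcases j with j | j
  · rw [Matrix.fromBlocks_apply₁₁, Matrix.fromBlocks_apply₁₁]
    fin_cases i <;> fin_cases j <;> simp [M4, M4']
  · simp
  · simp
  · simp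

/-- No matrix with the sign pattern `M4'` is nilpotent. -/
lemma not_nilp (a b c d e f g h i z : ℝ) (ha : 0 < a) (hc : 0 < c) (hd : 0 < d) (hf : 0 < f)
    (hg : 0 < g) (hh : 0 < h) (hi : 0 < i) (hz : 0 < z)
    (hX : (!![a, b, -c, z; -d, -e, f, 0; 0, 0, 0, -g; h, i, 0, 0] :
      Matrix (Fin 4) (Fin 4) ℝ).charpoly = X ^ 4) : False := by
  rw [m4_charpoly] at hX
  have c3 := congrArg (fun p => p.coeff 3) hX
  have c2 := congrArg (fun p => p.coeff 2) hX
  have c1 := congrArg (fun p => p.coeff 1) hX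
  have c0 := congrArg (fun p => p.coeff 0) hX
  simp only [coeff_add, coeff_sub, coeff_C_mul, coeff_X_pow, coeff_X, coeff_C] at c3 c2 c1 c0
  norm_num at c3 c2 c1 c0
  have hea : e = a := by linarith
  subst hea
  have c0' : b * f * h + c * d * i - e * c * h - e * f * i = 0 := by
    rcases c0 with h | h
    · exact absurd h hg.ne'
    · exact h
  have key : (e * h - d * i) ^ 2 * (g * f * i + z * d * i) + g * z * f * i * h ^ 3 = 0 := by
    linear_combination (d * i * h) * g * c0' - (g * f * i * h ^ 2) * c2 +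
      ((d * i) ^ 2 - e * h * (d * i)) * c1
  have h1 : 0 ≤ (e * h - d * i) ^ 2 * (g * f * i + z * d * i) := by positivity
  have h2 : 0 < g * z * f * i * h ^ 3 := by positivity
  linarith

lemma not_sap : ¬ SpectrallyArbitrary (blk M4' T2) := by
  intro hS
  obtain ⟨B, hB, hc⟩ := hS (X ^ 6) (monic_X_pow 6) (natDegree_X_pow 6)
  set B4 : Matrix (Fin 4) (Fin 4) ℝ := fun i j => B (finSumFinEquiv (m := 4) (n := 2) (Sum.inl i))
    (finSumFinEquiv (m := 4) (n := 2) (Sum.inl j)) with hB4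
  set B2 : Matrix (Fin 2) (Fin 2) ℝ := fun i j => B (finSumFinEquiv (m := 4) (n := 2) (Sum.inr i))
    (finSumFinEquiv (m := 4) (n := 2) (Sum.inr j)) with hB2
  have hBb : B = blk B4 B2 := by
    ext i j
    revert j
    revert i
    apply forall_fin6
    intro i
    apply forall_fin6
    intro j
    rw [blk_apply]
    have h := hB (finSumFinEquiv (m := 4) (n := 2) i) (finSumFinEquiv (m := 4) (n := 2) j)
    rw [blk_apply] at h
    rcases i with i | i <;> rcases j with j | j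
    · rfl
    · simpa using h
    · simpa using h
    · rfl
  have hs4 : ∀ i j, SignType.sign (B4 i j) = M4' i j := by
    intro i j
    have h := hB (finSumFinEquiv (m := 4) (n := 2) (Sum.inl i))
      (finSumFinEquiv (m := 4) (n := 2) (Sum.inl j))
    rw [blk_apply] at h
    simpa using h
  rw [hBb, blk_charpoly] at hc
  have hdvd : B4.charpoly ∣ X ^ 6 := ⟨_, hc.symm⟩
  obtain ⟨k, -, hk⟩ := (dvd_prime_pow Polynomial.prime_X 6).1 hdvd
  have hk2 : B4.charpoly = X ^ k :=
    eq_of_monic_of_associated (Matrix.charpoly_monic B4) (monic_X_pow k) hk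
  have hdeg : k = 4 := by
    have h1 : B4.charpoly.natDegree = 4 := by
      rw [Matrix.charpoly_natDegree_eq_dim, Fintype.card_fin]
    rw [hk2, natDegree_X_pow] at h1
    exact h1
  subst hdeg
  have pos : ∀ i j, M4' i j = 1 → 0 < B4 i j := fun i j h => by
    rw [← sign_eq_one_iff, hs4, h]
  have neg : ∀ i j, M4' i j = -1 → 0 < -B4 i j := fun i j h => by
    have : B4 i j < 0 := by rw [← sign_eq_neg_one_iff, hs4, h]
    linarith
  have zer : ∀ i j, M4' i j = 0 → B4 i j = 0 := fun i j h => by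
    rw [← sign_eq_zero_iff, hs4, h]
  apply not_nilp (B4 0 0) (B4 0 1) (-B4 0 2) (-B4 1 0) (-B4 1 1) (B4 1 2) (-B4 2 3) (B4 3 0)
    (B4 3 1) (B4 0 3) (pos 0 0 rfl) (neg 0 2 rfl) (neg 1 0 rfl) (pos 1 2 rfl) (neg 2 3 rfl)
    (pos 3 0 rfl) (pos 3 1 rfl) (pos 0 3 rfl)
  rw [← hk2]
  congr 1
  ext i j
  fin_cases i <;> fin_cases j <;>
    simp [zer 1 3 rfl, zer 2 0 rfl, zer 2 1 rfl, zer 2 2 rfl, zer 3 2 rfl, zer 3 3 rfl]

/-- There is a spectrally arbitrary sign pattern with a superpattern that is not spectrally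
arbitrary. -/
theorem result : ∃ (n : ℕ) (A A' : SignPattern n),
    SpectrallyArbitrary A ∧ IsSuperpattern A' A ∧ ¬ SpectrallyArbitrary A' :=
  ⟨6, blk M4 T2, blk M4' T2, sap, sup, not_sap⟩

end Pool.Agent.Results.MP_557f7f_co.NonSapSuperpattern
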